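import Pool.Agent.Y161.QF.Loop2
import Pool.Agent.Y161.QF.Tors
import Pool.Agent.Results.MP_49a69b_al.DegreeFourPoint

set_option autoImplicit false

/-!
# Quillen's freeness fails for `GL₂` at every closed point of degree at least four

Let `k` be a finite field, `l` a prime divisor of `|k| - 1`, `K = k(t)` the function field of the
projective line over `k`, `P` a closed point of degree `d ≥ 4` and `A = 𝒪_{K,{P}}`. For all classes
`c₁ ∈ H^2(GL₂(A); 𝔽_l)`, `c₂ ∈ H^4(GL₂(A); 𝔽_l)` the module `H^•(GL₂(A); 𝔽_l)` over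
`𝔽_l[c₁, c₂]` is not free.
-/

open Polynomial IsDedekindDomain
open scoped MatrixGroups

namespace Pool.Agent.Results.MP_49a69b_al.AllDegreesFromFour

open Pool.Agent.TH17.Coh Pool.Agent.TH17.FF Pool.Agent.Y161.QF
open Pool.Agent.Results.MP_49a69b_al.DegreeFourPoint

theorem exists_point (k : Type) [Field k] [Finite k] (d : ℕ) (hd : d ≠ 0) :
    ∃ P : HeightOneSpectrum k[X], Module.finrank k (k[X] ⧸ P.asIdeal) = d := by
  have := Fintype.ofFinite k
  have := NeZero.mk hd
  obtain ⟨p, hp⟩ := CharP.exists k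
  have hpp : Fact p.Prime := ⟨CharP.char_is_prime k p⟩
  let L := FiniteField.Extension k p d
  have hL : Module.finrank k L = d := FiniteField.finrank_extension k p d
  obtain ⟨a, ha⟩ := Field.exists_primitive_element k L
  have hint : IsIntegral k a := Algebra.IsIntegral.isIntegral a
  have hirr := minpoly.irreducible hint
  have hdeg : (minpoly k a).natDegree = d := by
    have h := IntermediateField.adjoin.finrank hint
    rw [ha, IntermediateField.finrank_top', hL] at h
    exact h.symm
  refine ⟨⟨Ideal.span {minpoly k a}, (Ideal.span_singleton_prime hirr.ne_zero).2 hirr.prime, ?_⟩, ?_⟩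
  · rw [Ne, Ideal.span_singleton_eq_bot]
    exact hirr.ne_zero
  · rw [finrank_quotient_span_eq_natDegree, hdeg]

/-- the parameter of the first edge in even degree -/
theorem exists_x {k : Type} [Field k] [Finite k] (hk : 3 ≤ Nat.card k) (u v : k) :
    ∃ x : k, u ≠ 2 * x ∨ (x ^ 2 ≠ v ∧ x ^ 2 ≠ v - 1) := by
  classical
  have _ : Fintype k := Fintype.ofFinite k
  rw [Nat.card_eq_fintype_card] at hk
  by_cases h2 : (2 : k) = 0
  · by_contra hc
    push Not at hc
    have h5 : (Finset.univ : Finset k).image (fun x => x ^ 2) ⊆ {v, v - 1} := by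
      intro y hy
      rw [Finset.mem_image] at hy
      obtain ⟨x, _, rfl⟩ := hy
      rw [Finset.mem_insert, Finset.mem_singleton]
      by_cases h : x ^ 2 = v
      · exact Or.inl h
      · exact Or.inr ((hc x).2 h)
    have h6 := Finset.card_le_card h5
    rw [Finset.card_image_of_injective, Finset.card_univ] at h6
    · have h7 : ({v, v - 1} : Finset k).card ≤ 2 := Finset.card_le_two
      omega
    · intro x y hxy
      have h8 : (x - y) ^ 2 = 0 := by
        have : x ^ 2 = y ^ 2 := hxy
        linear_combination this - x * y * h2 + y ^ 2 * h2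
      have h9 := pow_eq_zero_iff (two_ne_zero) |>.mp h8
      exact sub_eq_zero.mp h9
  · by_cases hu : u = 0
    · refine ⟨1, Or.inl ?_⟩
      rw [hu, mul_one]
      exact fun h => h2 h.symm
    · exact ⟨0, Or.inl (by rwa [mul_zero])⟩

theorem exists_loopData2 {k : Type} [Field k] [Finite k] (hk : 3 ≤ Nat.card k) {p : k[X]}
    (hm : p.Monic) (hdeg : 5 ≤ p.natDegree) : ∃ t t' s : k[X], LoopData2 p t t' s := by
  rcases Nat.even_or_odd p.natDegree with he | ho
  · obtain ⟨m, hm2⟩ := he
    obtain ⟨n, rfl⟩ : ∃ n, m = n + 3 := ⟨m - 3, by omega⟩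
    obtain ⟨x, hx⟩ := exists_x hk (p.coeff (2 * n + 5)) (p.coeff (2 * n + 4))
    have ht : (X ^ (n + 3) + C x * X ^ (n + 2) : k[X]).Monic := by
      refine monic_X_pow_add ?_
      refine lt_of_le_of_lt (degree_C_mul_X_pow_le _ _) ?_
      exact_mod_cast Nat.lt_succ_self _
    have hdt : (X ^ (n + 3) + C x * X ^ (n + 2) : k[X]).natDegree = n + 3 := by
      refine natDegree_eq_of_degree_eq_some ?_
      rw [degree_add_eq_left_of_degree_lt, degree_X_pow]
      rw [degree_X_pow]
      refine lt_of_le_of_lt (degree_C_mul_X_pow_le _ _) ?_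
      exact_mod_cast Nat.lt_succ_self _
    have hX : (X : k[X]).degree < (X ^ (n + 3) + C x * X ^ (n + 2) : k[X]).degree := by
      rw [degree_eq_natDegree ht.ne_zero, hdt, degree_X]
      exact_mod_cast (by omega : 1 < n + 3)
    have ht' : (X ^ (n + 3) + C x * X ^ (n + 2) + X : k[X]).Monic := ht.add_of_left hX
    have hdt' : (X ^ (n + 3) + C x * X ^ (n + 2) + X : k[X]).natDegree = n + 3 := by
      rw [natDegree_add_eq_left_of_degree_lt hX, hdt]
    refine ⟨_, _, _, loopData_of hm ht ht' hdt hdt' (by omega) (by omega) ?_ ?_ ?_⟩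
    · rw [add_sub_cancel_left, natDegree_X]
    · intro _
      rcases hx with hx | ⟨hx, hx'⟩
      · have h3 : (p - (X ^ (n + 3) + C x * X ^ (n + 2)) *
            (X ^ (n + 3) + C x * X ^ (n + 2) + X)).coeff (2 * n + 5) ≠ 0 := by
          have e : p - (X ^ (n + 3) + C x * X ^ (n + 2)) *
            (X ^ (n + 3) + C x * X ^ (n + 2) + X) = p - (X ^ (2 * n + 6) +
              C (2 * x) * X ^ (2 * n + 5) + C (x ^ 2) * X ^ (2 * n + 4) + X ^ (n + 4) +
              C x * X ^ (n + 3)) := by
            simp only [C_mul, C_pow, map_ofNat]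
            ring
          rw [e]
          simp only [coeff_sub, coeff_add, coeff_X_pow, coeff_C_mul]
          rw [if_neg (by omega), if_pos trivial, if_neg (by omega), if_neg (by omega),
            if_neg (by omega)]
          intro h
          apply hx
          linear_combination h
        have := le_natDegree_of_ne_zero h3
        omega
      · have h3 : (p - (X ^ (n + 3) + C x * X ^ (n + 2)) *
            (X ^ (n + 3) + C x * X ^ (n + 2) + X)).coeff (2 * n + 4) ≠ 0 := by
          have e : p - (X ^ (n + 3) + C x * X ^ (n + 2)) *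
            (X ^ (n + 3) + C x * X ^ (n + 2) + X) = p - (X ^ (2 * n + 6) +
              C (2 * x) * X ^ (2 * n + 5) + C (x ^ 2) * X ^ (2 * n + 4) + X ^ (n + 4) +
              C x * X ^ (n + 3)) := by
            simp only [C_mul, C_pow, map_ofNat]
            ring
          rw [e]
          simp only [coeff_sub, coeff_add, coeff_X_pow, coeff_C_mul]
          rw [if_neg (by omega), if_neg (by omega), if_pos trivial, if_neg (by omega : ¬ (2 * n + 4 = n + 3))]
          split_ifs with h4
          · intro h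
            apply hx'
            linear_combination -h
          · intro h
            apply hx
            linear_combination -h
        have := le_natDegree_of_ne_zero h3
        omega
    · intro _
      have e : p - (X ^ (n + 3) + C x * X ^ (n + 2)) * (X ^ (n + 3) + C x * X ^ (n + 2)) =
          p - (X ^ (2 * n + 6) + C (2 * x) * X ^ (2 * n + 5) + C (x ^ 2) * X ^ (2 * n + 4)) := by
        simp only [C_mul, C_pow, map_ofNat]
        ring
      rcases hx with hx | ⟨hx, hx'⟩
      · have h3 : (p - (X ^ (n + 3) + C x * X ^ (n + 2)) *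
            (X ^ (n + 3) + C x * X ^ (n + 2))).coeff (2 * n + 5) ≠ 0 := by
          rw [e]
          simp only [coeff_sub, coeff_add, coeff_X_pow, coeff_C_mul]
          rw [if_neg (by omega), if_pos trivial, if_neg (by omega)]
          intro h
          apply hx
          linear_combination h
        have := le_natDegree_of_ne_zero h3
        omega
      · have h3 : (p - (X ^ (n + 3) + C x * X ^ (n + 2)) *
            (X ^ (n + 3) + C x * X ^ (n + 2))).coeff (2 * n + 4) ≠ 0 := by
          rw [e]
          simp only [coeff_sub, coeff_add, coeff_X_pow, coeff_C_mul]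
          rw [if_neg (by omega), if_neg (by omega), if_pos trivial]
          intro h
          apply hx
          linear_combination -h
        have := le_natDegree_of_ne_zero h3
        omega
  · obtain ⟨m, hm2⟩ := ho
    have ht : (X ^ m : k[X]).Monic := monic_X_pow m
    have hX : (X : k[X]).degree < (X ^ m : k[X]).degree := by
      rw [degree_X_pow, degree_X]
      exact_mod_cast (by omega : 1 < m)
    have ht' : (X ^ m + X : k[X]).Monic := ht.add_of_left hX
    have hdt : (X ^ m : k[X]).natDegree = m := natDegree_X_pow m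
    have hdt' : (X ^ m + X : k[X]).natDegree = m := by
      rw [natDegree_add_eq_left_of_degree_lt hX, hdt]
    refine ⟨_, _, _, loopData_of hm ht ht' hdt hdt' (by omega) (by omega) ?_ ?_ ?_⟩
    · rw [add_sub_cancel_left, natDegree_X]
    · intro h; omega
    · intro h; omega

/-- The class `z` of degree one is killed by a nonzero combination of `c₁ ^ 2` and `c₂`; in
particular it is a torsion element of the module `H^•(G; 𝔽_l)` over `𝔽_l[c₁, c₂]`. -/
def IsTorsionClass {l : ℕ} {G : Type} [Group G] (c₁ : Cocycle l G 2) (c₂ : Cocycle l G 4)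
    (z : Cohomology l G 1) : Prop :=
  ∃ a b : ZMod l, (a ≠ 0 ∨ b ≠ 0) ∧
    a • cupTotal c₁ (cupTotal c₁ (incl l G 1 z)) + b • cupTotal c₂ (incl l G 1 z) = 0

theorem not_freeOver_of_torsion {l : ℕ} [Fact l.Prime] {G : Type} [Group G] (c₁ : Cocycle l G 2)
    (c₂ : Cocycle l G 4) (z : Cohomology l G 1) (hz : z ≠ 0) (ht : IsTorsionClass c₁ c₂ z) :
    ¬ FreeOver c₁ c₂ := by
  rintro ⟨_, ⟨hC, h₁, h₂⟩, hfree⟩
  obtain ⟨a, b, hab, hrel⟩ := ht
  let p : MvPolynomial (Fin 2) (ZMod l) :=
    MvPolynomial.C a * MvPolynomial.X 0 ^ 2 + MvPolynomial.C b * MvPolynomial.X 1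
  have hp : p ≠ 0 := by
    intro h0
    have e1 : MvPolynomial.coeff (Finsupp.single 0 2) p = a := by
      simp [p, MvPolynomial.coeff_C_mul, MvPolynomial.coeff_X_pow, MvPolynomial.coeff_X,
        Finsupp.single_eq_single_iff]
    have e2 : MvPolynomial.coeff (Finsupp.single 1 1) p = b := by
      simp [p, MvPolynomial.coeff_C_mul, MvPolynomial.coeff_X_pow, MvPolynomial.coeff_X,
        Finsupp.single_eq_single_iff]
    rw [h0, MvPolynomial.coeff_zero] at e1 e2
    rcases hab with h | h
    · exact h e1.symm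
    · exact h e2.symm
  have hpm : p • (incl l G 1 z) = 0 := by
    have e1 : p • (incl l G 1 z) =
        a • cupTotal c₁ (cupTotal c₁ (incl l G 1 z)) + b • cupTotal c₂ (incl l G 1 z) := by
      simp only [p]
      rw [add_smul, mul_smul, mul_smul, pow_two, mul_smul, hC a, hC b, h₁, h₁, h₂]
    rw [e1]
    exact hrel
  rcases smul_eq_zero.1 hpm with h | h
  · exact hp h
  · apply hz
    apply incl_injective 1
    rw [h, map_zero]

theorem exists_torsion {k : Type} [Field k] [Finite k] (l : ℕ) [Fact l.Prime]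
    (hl : l ∣ Nat.card k - 1) (P : HeightOneSpectrum k[X])
    (hP : 4 ≤ Module.finrank k (k[X] ⧸ P.asIdeal)) :
    ∃ z : Cohomology l (GL (Fin 2) (OKS k {some P})) 1, z ≠ 0 ∧
      ∀ (c₁ : Cocycle l (GL (Fin 2) (OKS k {some P})) 2)
        (c₂ : Cocycle l (GL (Fin 2) (OKS k {some P})) 4), IsTorsionClass c₁ c₂ z := by
  obtain ⟨p, hm, hPp⟩ := exists_monic P
  have hdeg : 4 ≤ p.natDegree := by
    rw [hPp, finrank_quotient_span_eq_natDegree] at hP
    exact hP
  have hk : 3 ≤ Nat.card k := by
    have h1 : 1 < Nat.card k := Finite.one_lt_card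
    have h2 := Nat.le_of_dvd (by omega) hl
    have h3 := (Fact.out : l.Prime).two_le
    omega
  rcases Nat.eq_or_lt_of_le hdeg with h4 | h5
  · obtain ⟨t, t', D⟩ := exists_loopData hk hm h4.symm
    exact torsion (scal k P) (hQ t) (almost hPp hm.ne_zero t)
      (Pool.Agent.TH17.FF.loopEl hPp hm.ne_zero D) (Pool.Agent.TH17.FF.J_loop l hPp hm.ne_zero D)
  · obtain ⟨t, t', s, D⟩ := exists_loopData2 hk hm h5
    exact torsion (scal k P) (hQ t) (almost hPp hm.ne_zero t)
      (Pool.Agent.Y161.QF.loopEl hPp hm.ne_zero D)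
      (Pool.Agent.Y161.QF.J_loop l hPp hm.ne_zero D)

/-- Let `k` be a finite field, `l` a prime number dividing `|k| - 1` and `d ≥ 4`. There are closed
points of degree `d` on the projective line over `k`. Let `P` be any such point and `A` the ring of
the elements of `k(t)` which are regular outside `P`. There is a nonzero class `z` in
`H^1(GL₂(A); 𝔽_l)` which, for all classes `c₁ ∈ H^2(GL₂(A); 𝔽_l)` and `c₂ ∈ H^4(GL₂(A); 𝔽_l)`, is
killed by a nonzero combination of `c₁ ^ 2` and `c₂`. In particular the total cohomology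
`H^•(GL₂(A); 𝔽_l)` is never torsion-free, and never free, over `𝔽_l[c₁, c₂]`. -/
theorem result (k : Type) [Field k] [Finite k] (l : ℕ) [Fact l.Prime] (hl : l ∣ Nat.card k - 1)
    (d : ℕ) (hd : 4 ≤ d) :
    (∃ P : HeightOneSpectrum k[X], Module.finrank k (k[X] ⧸ P.asIdeal) = d) ∧
    ∀ P : HeightOneSpectrum k[X], Module.finrank k (k[X] ⧸ P.asIdeal) = d →
      ∃ z : Cohomology l (GL2 k P) 1, z ≠ 0 ∧
        ∀ (c₁ : Cocycle l (GL2 k P) 2) (c₂ : Cocycle l (GL2 k P) 4),
          IsTorsionClass c₁ c₂ z ∧ ¬ FreeOver c₁ c₂ := by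
  refine ⟨exists_point k d (by omega), fun P hP => ?_⟩
  obtain ⟨z, hz, ht⟩ : ∃ z : Cohomology l (GL2 k P) 1, z ≠ 0 ∧
      ∀ (c₁ : Cocycle l (GL2 k P) 2) (c₂ : Cocycle l (GL2 k P) 4), IsTorsionClass c₁ c₂ z :=
    exists_torsion l hl P (hP ▸ hd)
  exact ⟨z, hz, fun c₁ c₂ => ⟨ht c₁ c₂, not_freeOver_of_torsion c₁ c₂ z hz (ht c₁ c₂)⟩⟩

end Pool.Agent.Results.MP_49a69b_al.AllDegreesFromFour
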